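import Pool.Agent.H2.KM.Targets

/-! Row BSP of `kim_modules`: the contractions preserve the symmetry. -/

set_option autoImplicit false

open Matrix Pool.Agent.H2.NL Pool.Agent.H2.KM Pool.Agent.H64.CC

namespace Pool.Agent.H67.KM

section

variable {K : Type} [Field K] {I : Type} {o : I → Bool} {x : List I → List I → K}

theorem gs_up (hx : GS o x) (j : ℕ) (u v : List I) : sgx K o j u * x (ex j u) v = x u v := by
  have h := hx.up j u v
  rwa [sw_eq] at h

theorem gs_lo (hx : GS o x) (j : ℕ) (u v : List I) : sgx K o j v * x u (ex j v) = x u v := by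
  have h := hx.lo j u v
  rwa [sw_eq] at h

end

theorem pf_BSP : T_BSP := by
  intro K _ I _ _ F x hx
  refine ⟨⟨?_, ?_⟩, ⟨?_, ?_⟩, ⟨?_, ?_⟩⟩
  · intro j u v
    rw [sw_eq]
    unfold opA
    rw [Finset.mul_sum]
    refine Finset.sum_congr rfl fun e _ => ?_
    have h : sgx K F.o j u * x (e :: F.st e :: ex j u) v = x (e :: F.st e :: u) v :=
      gs_up hx (j + 2) (e :: F.st e :: u) v
    rw [← h]
    ring
  · intro j u v
    rw [sw_eq]
    unfold opA
    rw [Finset.mul_sum]
    refine Finset.sum_congr rfl fun e _ => ?_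
    have h := gs_lo hx j (e :: F.st e :: u) v
    rw [← h]
    ring
  · intro j u v
    rw [sw_eq]
    unfold opB
    rw [Finset.mul_sum]
    refine Finset.sum_congr rfl fun e _ => ?_
    have h := gs_up hx j u (e :: F.st e :: v)
    rw [← h]
    ring
  · intro j u v
    rw [sw_eq]
    unfold opB
    rw [Finset.mul_sum]
    refine Finset.sum_congr rfl fun e _ => ?_
    have h : sgx K F.o j v * x u (e :: F.st e :: ex j v) = x u (e :: F.st e :: v) :=
      gs_lo hx (j + 2) u (e :: F.st e :: v)
    rw [← h]
    ring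
  · intro j u v
    rw [sw_eq]
    unfold opC
    rw [Finset.mul_sum]
    refine Finset.sum_congr rfl fun e _ => ?_
    have h : sgx K F.o j u * x (e :: ex j u) (F.st e :: v) = x (e :: u) (F.st e :: v) :=
      gs_up hx (j + 1) (e :: u) (F.st e :: v)
    rw [← h, sgp_perm F.o e (ex_perm j u)]
    ring
  · intro j u v
    rw [sw_eq]
    unfold opC
    rw [Finset.mul_sum]
    refine Finset.sum_congr rfl fun e _ => ?_
    have h : sgx K F.o j v * x (e :: u) (F.st e :: ex j v) = x (e :: u) (F.st e :: v) :=
      gs_lo hx (j + 1) (e :: u) (F.st e :: v)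
    rw [← h]
    ring

end Pool.Agent.H67.KM
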